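import Pool.Agent.Y518.CC.PubThm

/-!
# Two-colourings of Borel bipartite graphs do not give transversals of the Vitali relation

For every Borel graph without odd cycles on a Polish space there is a countable transitive model
of ZF + DC that contains a 2-colouring of the graph but no transversal of the Vitali equivalence
relation on the real numbers; moreover the model can be chosen to contain any given real. The
other definitions are in `Pool/Agent/Y518/CC/Pub.lean`.
-/

set_option autoImplicit false

namespace Pool.Agent.Results.MP_2948f4_lc.NoVitaliTransversal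

open Pool.Agent.Y518.CC.Pub

open Classical in
/-- The Dedekind cut of the real number `r`, as a function on the natural numbers: the value at
`n` is `1` if the `n`-th rational number (in a fixed enumeration of all rational numbers) is
smaller than `r`, and `0` otherwise. -/
noncomputable def cut (r : ℝ) (n : ℕ) : ℕ := if ((Denumerable.ofNat ℚ n : ℚ) : ℝ) < r then 1 else 0

/-- In the transitive class `M`, the set `T` is a transversal of the Vitali equivalence relation
(`r` and `s` are equivalent if `r - s` is rational) on the real numbers. The real numbers of `M`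
are the real numbers `r` whose Dedekind cut is in `M`. All elements of `T` are (Dedekind cuts of)
real numbers, and for every real number `r` of `M` there is exactly one real number `s` in `T`
such that `s - r` is rational. -/
def IsVitali (M : Set ZFSet.{0}) (T : ZFSet.{0}) : Prop :=
  (∀ t ∈ T, ∃ r : ℝ, t = code (cut r)) ∧
  ∀ r : ℝ, code (cut r) ∈ M → ∃! s : ℝ, code (cut s) ∈ T ∧ ∃ q : ℚ, s - r = q

theorem result {X : Type} [TopologicalSpace X] [PolishSpace X] [MeasurableSpace X] [BorelSpace X]
    (Γ : SimpleGraph X) (borel : MeasurableSet {p : X × X | Γ.Adj p.1 p.2})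
    (bipartite : ∀ (x : X) (w : Γ.Walk x x), w.IsCycle → Even w.length)
    (e : X → ℕ → ℕ) (he : Measurable e) (inj : Function.Injective e) (z : ℕ → ℕ) :
    ∃ M : Set ZFSet.{0}, M.Countable ∧ IsZF M ∧ DC M ∧ code z ∈ M ∧
      (∃ c ∈ M, IsColouring M Γ e 2 c) ∧ ¬ ∃ T ∈ M, IsVitali M T := by
  obtain ⟨M, h1, h2, h3, h4, h5, h6, -⟩ := model Γ borel two_pos (two bipartite) e he inj z
  refine ⟨M, h1, h2, h3, h4, h5, ?_⟩
  have h7 : cut = Pool.Agent.Y518.CC.cut := rfl
  simp only [IsVitali, Pool.Agent.Y518.CC.IsVitali, code_eq, h7] at h6 ⊢
  exact h6

end Pool.Agent.Results.MP_2948f4_lc.NoVitaliTransversal
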